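import Mathlib
import Pool.Agent.K7.H74.AG.Stm

set_option autoImplicit false

open MeasureTheory Finset

namespace Pool.Agent.K7.H55.AG

open Pool.Agent.K7.H74.AF (lo blk Box mx e)
open Pool.Agent.K7.H74.AG

theorem snocCn (k t : ℕ) (ξ : Fin t → ℝ) (β : ℝ) (b : Fin t → ℕ) (J : ℕ) (η τ : ℝ) :
    cn k (Fin.snoc ξ β : Fin (t + 1) → ℝ) (Fin.snoc b J : Fin (t + 1) → ℕ) η τ =
      ∑ x ∈ blk J, cn k ξ b η (τ - β * (x : ℝ) ^ k) := by
  classical
  unfold cn
  rw [← Finset.card_sigma]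
  symm
  refine Finset.card_bij (fun p _ => (Fin.snoc p.2 p.1 : Fin (t + 1) → ℕ)) ?_ ?_ ?_
  · rintro ⟨x, y⟩ h
    simp only [Finset.mem_sigma, Finset.mem_filter, Box, Fintype.mem_piFinset] at h ⊢
    obtain ⟨hx, hy, hs⟩ := h
    refine ⟨?_, ?_⟩
    · intro i
      refine Fin.lastCases ?_ (fun j => ?_) i
      · simpa using hx
      · simpa using hy j
    · rw [Fin.sum_univ_castSucc]
      simp only [Fin.snoc_castSucc, Fin.snoc_last]
      convert hs using 2
      ring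
  · rintro ⟨x, y⟩ h ⟨x', y'⟩ h' heq
    have h1 : x = x' := by
      have := congrFun heq (Fin.last t)
      simpa using this
    have h2 : y = y' := by
      funext i
      have := congrFun heq (Fin.castSucc i)
      simpa using this
    subst h1; subst h2; rfl
  · intro z hz
    simp only [Finset.mem_filter, Box, Fintype.mem_piFinset] at hz
    obtain ⟨hz, hs⟩ := hz
    refine ⟨⟨z (Fin.last t), fun i => z (Fin.castSucc i)⟩, ?_, ?_⟩
    · simp only [Finset.mem_sigma, Finset.mem_filter, Box, Fintype.mem_piFinset]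
      refine ⟨by simpa using hz (Fin.last t), fun i => by simpa using hz (Fin.castSucc i), ?_⟩
      rw [Fin.sum_univ_castSucc] at hs
      simp only [Fin.snoc_castSucc, Fin.snoc_last] at hs
      convert hs using 2
      ring
    · funext i
      refine Fin.lastCases ?_ (fun j => ?_) i
      · simp
      · simp

theorem card_blk_le (a : ℕ) : (blk a).card ≤ 3 ^ a := by
  unfold blk
  rw [Nat.card_Ico]
  exact Nat.sub_le _ _

theorem card_Box_le {t : ℕ} (b : Fin t → ℕ) : (Box b).card ≤ (3 ^ mx b) ^ t := by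
  unfold Box
  rw [Fintype.card_piFinset]
  calc ∏ i, (blk (b i)).card ≤ ∏ _i : Fin t, 3 ^ mx b := by
        refine Finset.prod_le_prod' fun i _ => ?_
        refine (card_blk_le _).trans (Nat.pow_le_pow_right (by norm_num) ?_)
        exact Finset.le_sup (f := b) (Finset.mem_univ i)
    _ = (3 ^ mx b) ^ t := by simp

theorem cn_le (k t : ℕ) (ξ : Fin t → ℝ) (b : Fin t → ℕ) (η τ : ℝ) :
    (cn k ξ b η τ : ℝ) ≤ ((3 : ℝ) ^ mx b) ^ t := by
  classical
  have h : cn k ξ b η τ ≤ (3 ^ mx b) ^ t := (Finset.card_filter_le _ _).trans (card_Box_le b)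
  exact_mod_cast h

theorem cn_mono (k t : ℕ) (ξ : Fin t → ℝ) (b : Fin t → ℕ) (η η' τ : ℝ) (h : η ≤ η') :
    cn k ξ b η τ ≤ cn k ξ b η' τ := by
  classical
  unfold cn
  exact Finset.card_le_card (Finset.monotone_filter_right _ fun x _ hx => hx.trans h)

theorem vol_bx {t : ℕ} (b : Fin t → ℕ) :
    volume {u : Fin t → ℝ | ∀ i, (lo (b i) : ℝ) ≤ u i ∧ u i < 3 ^ b i} ≤
      ENNReal.ofReal (((3 : ℝ) ^ mx b) ^ t) := by
  have h : {u : Fin t → ℝ | ∀ i, (lo (b i) : ℝ) ≤ u i ∧ u i < 3 ^ b i} =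
      Set.univ.pi (fun i => Set.Ico (lo (b i) : ℝ) (3 ^ b i)) := by
    ext u
    simp only [Set.mem_ofPred_eq, Set.mem_pi, Set.mem_univ, true_implies, Set.mem_Ico]
  rw [h, volume_pi_pi]
  calc ∏ i, volume (Set.Ico (lo (b i) : ℝ) (3 ^ b i)) ≤
        ∏ _i : Fin t, ENNReal.ofReal ((3 : ℝ) ^ mx b) := by
        refine Finset.prod_le_prod' fun i _ => ?_
        rw [Real.volume_Ico]
        refine ENNReal.ofReal_le_ofReal ?_
        have h1 : (0 : ℝ) ≤ lo (b i) := Nat.cast_nonneg _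
        have h2 : (3 : ℝ) ^ b i ≤ 3 ^ mx b :=
          pow_le_pow_right₀ (by norm_num) (Finset.le_sup (f := b) (Finset.mem_univ i))
        linarith
    _ = _ := by
        rw [Finset.prod_const, Finset.card_univ, Fintype.card_fin,
          ENNReal.ofReal_pow (by positivity) t]

theorem vl_bd (k t : ℕ) (a : Fin t → ℝ) (b : Fin t → ℕ) (η τ : ℝ) :
    0 ≤ vl k a b η τ ∧ vl k a b η τ ≤ ((3 : ℝ) ^ mx b) ^ t := by
  refine ⟨ENNReal.toReal_nonneg, ?_⟩
  unfold vl
  refine ENNReal.toReal_le_of_le_ofReal (by positivity) ?_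
  refine (measure_mono ?_).trans (vol_bx b)
  intro u hu
  exact hu.1

theorem Df_vol (k t : ℕ) (a : Fin t → ℝ) (b : Fin t → ℕ) (η : ℝ) (l : ℕ) (hη : η ≤ 1) :
    volume (Df k a b η l) ≤ ENNReal.ofReal (2 * ((3 : ℝ) ^ mx b) ^ t) := by
  set bx : Set (Fin t → ℝ) := {u : Fin t → ℝ | ∀ i, (lo (b i) : ℝ) ≤ u i ∧ u i < 3 ^ b i} with hbx
  have hbxm : MeasurableSet bx := by
    rw [hbx]
    have : {u : Fin t → ℝ | ∀ i, (lo (b i) : ℝ) ≤ u i ∧ u i < 3 ^ b i} =
        Set.univ.pi (fun i => Set.Ico (lo (b i) : ℝ) (3 ^ b i)) := by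
      ext u
      simp only [Set.mem_ofPred_eq, Set.mem_pi, Set.mem_univ, true_implies, Set.mem_Ico]
    rw [this]
    exact MeasurableSet.univ_pi fun i => measurableSet_Ico
  set P : Set (ℝ × (Fin t → ℝ)) := {p | p.2 ∈ bx ∧ |∑ i, a i * p.2 i ^ k - p.1| ≤ η} with hP
  have hPm : MeasurableSet P := by
    refine MeasurableSet.inter (measurable_snd hbxm) ?_
    have hf : Measurable fun p : ℝ × (Fin t → ℝ) => |∑ i, a i * p.2 i ^ k - p.1| := by fun_prop
    exact measurableSet_le hf measurable_const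
  have hA : ∀ τ, (Prod.mk τ ⁻¹' P) = {u : Fin t → ℝ | (∀ i, (lo (b i) : ℝ) ≤ u i ∧ u i < 3 ^ b i) ∧
      |∑ i, a i * u i ^ k - τ| ≤ η} := fun τ => rfl
  have hsub : Df k a b η l ⊆ {τ | (1 : ENNReal) ≤ volume (Prod.mk τ ⁻¹' P)} := by
    intro τ hτ
    simp only [Df, Set.mem_ofPred_eq] at hτ ⊢
    have h1 : (1 : ℝ) ≤ vl k a b η τ := by
      have h2 : (1 : ℝ) ≤ 2 ^ l := one_le_pow₀ (by norm_num)
      have h3 : (0 : ℝ) ≤ cn k a b η τ := Nat.cast_nonneg _
      linarith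
    rw [hA τ]
    have := ENNReal.ofReal_le_of_le_toReal h1
    simpa using this
  have hm : Measurable fun τ => volume (Prod.mk τ ⁻¹' P) := measurable_measure_prodMk_left hPm
  have hmk : (1 : ENNReal) * volume {τ | (1 : ENNReal) ≤ volume (Prod.mk τ ⁻¹' P)} ≤
      ∫⁻ τ, volume (Prod.mk τ ⁻¹' P) := mul_meas_ge_le_lintegral hm _
  have hint : ∫⁻ τ, volume (Prod.mk τ ⁻¹' P) ≤ ENNReal.ofReal 2 * volume bx := by
    have e1 : ∫⁻ τ, volume (Prod.mk τ ⁻¹' P) = ((volume : Measure ℝ).prod (volume : Measure (Fin t → ℝ))) P :=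
      (Measure.prod_apply hPm).symm
    rw [e1, Measure.prod_apply_symm hPm]
    have e2 : ∀ u : Fin t → ℝ, volume ((fun τ : ℝ => (τ, u)) ⁻¹' P) ≤ bx.indicator (fun _ => ENNReal.ofReal 2) u := by
      intro u
      by_cases hu : u ∈ bx
      · rw [Set.indicator_of_mem hu]
        have : ((fun τ : ℝ => (τ, u)) ⁻¹' P) ⊆
            Set.Icc (∑ i, a i * u i ^ k - 1) (∑ i, a i * u i ^ k + 1) := by
          intro τ hτ
          have h4 : |∑ i, a i * u i ^ k - τ| ≤ η := hτ.2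
          rw [abs_le] at h4
          rw [Set.mem_Icc]
          constructor <;> linarith [h4.1, h4.2]
        refine (measure_mono this).trans ?_
        rw [Real.volume_Icc]
        refine ENNReal.ofReal_le_ofReal ?_
        linarith
      · rw [Set.indicator_of_notMem hu]
        have : ((fun τ : ℝ => (τ, u)) ⁻¹' P) = ∅ := by
          ext τ
          simp only [Set.mem_preimage, Set.mem_empty_iff_false, iff_false]
          exact fun h => hu h.1
        rw [this, measure_empty]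
    calc ∫⁻ u, volume ((fun τ : ℝ => (τ, u)) ⁻¹' P) ≤ ∫⁻ u, bx.indicator (fun _ => ENNReal.ofReal 2) u :=
          lintegral_mono e2
      _ = ENNReal.ofReal 2 * volume bx := by
          rw [lintegral_indicator hbxm, lintegral_const, Measure.restrict_apply MeasurableSet.univ, Set.univ_inter]
  calc volume (Df k a b η l) ≤ volume {τ | (1 : ENNReal) ≤ volume (Prod.mk τ ⁻¹' P)} := measure_mono hsub
    _ = 1 * volume {τ | (1 : ENNReal) ≤ volume (Prod.mk τ ⁻¹' P)} := (one_mul _).symm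
    _ ≤ _ := hmk
    _ ≤ _ := hint
    _ ≤ ENNReal.ofReal 2 * ENNReal.ofReal (((3 : ℝ) ^ mx b) ^ t) := by
        gcongr
        exact vol_bx b
    _ = _ := (ENNReal.ofReal_mul (by norm_num)).symm

theorem Lv_vol (k t : ℕ) (ξ : Fin t → ℝ) (b : Fin t → ℕ) (l : ℕ) :
    volume (Lv k ξ b l) ≤ ENNReal.ofReal (2 * ((3 : ℝ) ^ mx b) ^ t / 2 ^ l) := by
  classical
  set S : (Fin t → ℕ) → ℝ := fun x => ∑ i, ξ i * (x i : ℝ) ^ k with hS
  set f : ℝ → ENNReal := fun τ => ∑ x ∈ Box b, (Set.Icc (S x - 1) (S x + 1)).indicator (fun _ => (1 : ENNReal)) τ with hf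
  have hfm : Measurable f := by
    refine Finset.measurable_sum _ fun x _ => ?_
    exact measurable_const.indicator measurableSet_Icc
  have hcn : ∀ τ, f τ = (cn k ξ b 1 τ : ENNReal) := by
    intro τ
    simp only [hf, cn]
    rw [Finset.card_filter]
    push_cast
    refine Finset.sum_congr rfl fun x _ => ?_
    rw [Set.indicator_apply]
    have : τ ∈ Set.Icc (S x - 1) (S x + 1) ↔ |∑ i, ξ i * (x i : ℝ) ^ k - τ| ≤ 1 := by
      rw [abs_le, Set.mem_Icc]
      simp only [hS]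
      constructor
      · rintro ⟨h1, h2⟩
        constructor <;> linarith
      · rintro ⟨h1, h2⟩
        constructor <;> linarith
    by_cases h : τ ∈ Set.Icc (S x - 1) (S x + 1)
    · rw [if_pos h, if_pos (this.1 h)]
    · rw [if_neg h, if_neg (fun h' => h (this.2 h'))]
  have hint : ∫⁻ τ, f τ = 2 * ((Box b).card : ENNReal) := by
    simp only [hf]
    rw [lintegral_finsetSum _ (fun x _ => measurable_const.indicator measurableSet_Icc)]
    have : ∀ x ∈ Box b, ∫⁻ τ, (Set.Icc (S x - 1) (S x + 1)).indicator (fun _ => (1 : ENNReal)) τ = 2 := by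
      intro x _
      rw [lintegral_indicator measurableSet_Icc]
      simp only [lintegral_const, one_mul, Measure.restrict_apply MeasurableSet.univ, Set.univ_inter, Real.volume_Icc]
      norm_num
    rw [Finset.sum_congr rfl this]
    simp [mul_comm]
  have hsub : Lv k ξ b l ⊆ {τ | (2 : ENNReal) ^ l ≤ f τ} := by
    intro τ hτ
    simp only [Lv, Set.mem_ofPred_eq] at hτ ⊢
    rw [hcn τ]
    have : 2 ^ l ≤ cn k ξ b 1 τ := by exact_mod_cast hτ
    exact_mod_cast this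
  have hmk : (2 : ENNReal) ^ l * volume {τ | (2 : ENNReal) ^ l ≤ f τ} ≤ ∫⁻ τ, f τ :=
    mul_meas_ge_le_lintegral hfm _
  have h2 : (2 : ENNReal) ^ l ≠ 0 := by positivity
  have h2' : (2 : ENNReal) ^ l ≠ ⊤ := ENNReal.pow_ne_top (by norm_num)
  have hmain : volume (Lv k ξ b l) ≤ (2 * ((Box b).card : ENNReal)) / 2 ^ l := by
    rw [ENNReal.le_div_iff_mul_le (Or.inl h2) (Or.inl h2')]
    rw [mul_comm]
    calc (2 : ENNReal) ^ l * volume (Lv k ξ b l) ≤ 2 ^ l * volume {τ | (2 : ENNReal) ^ l ≤ f τ} := by gcongr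
      _ ≤ ∫⁻ τ, f τ := hmk
      _ = _ := hint
  refine hmain.trans ?_
  have hcard : ((Box b).card : ℝ) ≤ ((3 : ℝ) ^ mx b) ^ t := by
    exact_mod_cast card_Box_le b
  calc (2 * ((Box b).card : ENNReal)) / 2 ^ l = ENNReal.ofReal (2 * ((Box b).card : ℝ) / 2 ^ l) := by
        rw [ENNReal.ofReal_div_of_pos (by positivity), ENNReal.ofReal_mul (by norm_num),
          ENNReal.ofReal_pow (by norm_num)]
        simp
    _ ≤ _ := by
        refine ENNReal.ofReal_le_ofReal ?_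
        gcongr

theorem Ex_sub (k t : ℕ) (ξ : Fin t → ℝ) (b : Fin t → ℕ) (η : ℝ) (l : ℕ) (h : η ≤ 1) :
    Ex k ξ b η l ⊆ Lv k ξ b l := by
  intro τ hτ
  simp only [Ex, Lv, Set.mem_ofPred_eq] at hτ ⊢
  have h1 := (vl_bd k t ξ b η τ).1
  have h2 : (cn k ξ b η τ : ℝ) ≤ cn k ξ b 1 τ := by exact_mod_cast cn_mono k t ξ b η 1 τ h
  linarith

theorem split : StSplit :=
  ⟨snocCn, cn_le, cn_mono, vl_bd, Lv_vol, Ex_sub, Df_vol⟩

end Pool.Agent.K7.H55.AG
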